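import Mathlib

/-!
# A homeomorphism of finite order of a circle with a fixed point is an involution
-/

set_option autoImplicit false

namespace Pool.Agent.PrC

open Set Function

/-- A map of an open interval to itself, continuous, injective, of finite order: `F (F t) = t`. -/
theorem invol_Ioo {a b : ℝ} (hab : a < b) {F : ℝ → ℝ} (hm : MapsTo F (Ioo a b) (Ioo a b))
    (hc : ContinuousOn F (Ioo a b)) (hi : InjOn F (Ioo a b)) {N : ℕ} (hN : 0 < N)
    (hid : ∀ t ∈ Ioo a b, F^[N] t = t) : ∀ t ∈ Ioo a b, F (F t) = t := by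
  have key : ∀ G : ℝ → ℝ, MapsTo G (Ioo a b) (Ioo a b) → StrictMonoOn G (Ioo a b) →
      (∀ t ∈ Ioo a b, G^[N] t = t) → ∀ t ∈ Ioo a b, G t = t := by
    intro G hG hmono hGid t ht
    have hmem : ∀ k : ℕ, G^[k] t ∈ Ioo a b := by
      intro k
      induction k with
      | zero => exact ht
      | succ k ih => rw [iterate_succ_apply']; exact hG ih
    rcases lt_trichotomy (G t) t with h | h | h
    · exfalso
      have h1 : ∀ k : ℕ, G^[k + 1] t < t := by
        intro k
        induction k with
        | zero => simpa using h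
        | succ k ih =>
          rw [iterate_succ_apply']
          exact (hmono (hmem _) ht ih).trans h
      obtain ⟨k, rfl⟩ : ∃ k, N = k + 1 := ⟨N - 1, by omega⟩
      exact absurd (hGid t ht) (h1 k).ne
    · exact h
    · exfalso
      have h1 : ∀ k : ℕ, t < G^[k + 1] t := by
        intro k
        induction k with
        | zero => simpa using h
        | succ k ih =>
          rw [iterate_succ_apply']
          exact h.trans (hmono ht (hmem _) ih)
      obtain ⟨k, rfl⟩ : ∃ k, N = k + 1 := ⟨N - 1, by omega⟩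
      exact absurd (hGid t ht) (h1 k).ne'
  have h2 : StrictMonoOn (F ∘ F) (Ioo a b) := by
    rcases hc.strictMonoOn_of_injOn_Ioo hab hi with h | h
    · exact fun x hx y hy hxy => h (hm hx) (hm hy) (h hx hy hxy)
    · exact fun x hx y hy hxy => h (hm hy) (hm hx) (h hx hy hxy)
  have hid2 : ∀ t ∈ Ioo a b, (F ∘ F)^[N] t = t := by
    intro t ht
    have e : (F ∘ F)^[N] t = F^[N] (F^[N] t) := by
      have : (F ∘ F) = F^[2] := rfl
      rw [this, ← iterate_mul, mul_comm, iterate_mul, iterate_succ_apply, iterate_one]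
    rw [e, hid t ht, hid t ht]
  exact key (F ∘ F) (hm.comp hm) h2 hid2

/-- A homeomorphism of finite order of a circle with a fixed point is an involution. -/
theorem invol_circle {B : Type*} [TopologicalSpace B] (e : AddCircle (1 : ℝ) ≃ₜ B) (f : B → B)
    (hf : Continuous f) (hinj : Injective f) {x : B} (hx : f x = x) {N : ℕ} (hN : 0 < N)
    (hid : ∀ y, f^[N] y = y) : ∀ y, f (f y) = y := by
  obtain ⟨a, ha⟩ : ∃ a : ℝ, ((a : ℝ) : AddCircle (1 : ℝ)) = e.symm x :=
    QuotientAddGroup.mk_surjective _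
  have hone : (0 : ℝ) < 1 := one_pos
  have : Fact ((0 : ℝ) < 1) := ⟨hone⟩
  let φ := AddCircle.openPartialHomeomorphCoe (1 : ℝ) a
  have hφs : φ.source = Ioo a (a + 1) := rfl
  have hφt : φ.target = {(a : AddCircle (1 : ℝ))}ᶜ := rfl
  let F : ℝ → ℝ := fun t => φ.symm (e.symm (f (e (φ t))))
  have hcoe : ∀ t, φ t = (t : AddCircle (1 : ℝ)) := fun t => rfl
  have hin : ∀ t ∈ Ioo a (a + 1), e.symm (f (e (φ t))) ∈ φ.target := by
    intro t ht
    have h1 : φ t ∈ φ.target := φ.map_source ht
    rw [hφt, mem_compl_iff, mem_singleton_iff] at h1 ⊢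
    intro h2
    apply h1
    rw [ha] at h2 ⊢
    have h3 : f (e (φ t)) = x := e.symm.injective h2
    rw [← hx] at h3
    have h4 := hinj h3
    rw [← h4, e.symm_apply_apply]
  have hm : MapsTo F (Ioo a (a + 1)) (Ioo a (a + 1)) := fun t ht => φ.map_target (hin t ht)
  have hφF : ∀ t ∈ Ioo a (a + 1), φ (F t) = e.symm (f (e (φ t))) := fun t ht =>
    φ.right_inv (hin t ht)
  have hc : ContinuousOn F (Ioo a (a + 1)) := by
    have h1 : ContinuousOn (fun t => e.symm (f (e (φ t)))) (Ioo a (a + 1)) :=
      (e.symm.continuous.comp (hf.comp e.continuous)).comp_continuousOn φ.continuousOn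
    exact φ.continuousOn_symm.comp h1 hin
  have hi : InjOn F (Ioo a (a + 1)) := by
    intro s hs t ht hst
    have h1 := hφF s hs
    rw [hst, hφF t ht] at h1
    exact φ.injOn hs ht (e.injective (hinj (e.symm.injective h1.symm)))
  have hFN : ∀ t ∈ Ioo a (a + 1), F^[N] t = t := by
    intro t ht
    have h1 : ∀ k : ℕ, F^[k] t ∈ Ioo a (a + 1) ∧ e (φ (F^[k] t)) = f^[k] (e (φ t)) := by
      intro k
      induction k with
      | zero => exact ⟨ht, rfl⟩
      | succ k ih =>
        rw [iterate_succ_apply', iterate_succ_apply']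
        refine ⟨hm ih.1, ?_⟩
        rw [hφF _ ih.1, e.apply_symm_apply, ih.2]
    have h2 := (h1 N).2
    rw [hid] at h2
    exact φ.injOn (h1 N).1 ht (e.injective h2)
  have hFF := invol_Ioo (by linarith) hm hc hi hN hFN
  intro y
  by_cases hy : y = x
  · rw [hy, hx, hx]
  · have h1 : e.symm y ∈ φ.target := by
      rw [hφt, mem_compl_iff, mem_singleton_iff, ha]
      exact fun h => hy (e.symm.injective h)
    have ht : φ.symm (e.symm y) ∈ Ioo a (a + 1) := φ.map_target h1
    have h2 : φ (φ.symm (e.symm y)) = e.symm y := φ.right_inv h1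
    have h3 := hFF _ ht
    have h4 := hφF _ (hm ht)
    rw [h3, hφF _ ht, h2, e.apply_symm_apply, e.apply_symm_apply] at h4
    exact (e.symm.injective h4).symm

end Pool.Agent.PrC
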